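import Mathlib
import Pool.Agent.Helper426.HC.FinN
import Pool.Agent.Helper426.HC.Sidon

set_option autoImplicit false

namespace Pool.Agent.Results.MP_838d6f_co.GolombBound

/-- no two distinct cycles have the same length: cycles of equal length have the same edges -/
def DistinctCycleLengths {V : Type*} (G : SimpleGraph V) : Prop :=
  ∀ (u v : V) (p : G.Walk u u) (q : G.Walk v v), p.IsCycle → q.IsCycle →
    p.length = q.length → ∀ e, e ∈ p.edges ↔ e ∈ q.edges

/-- `h n`: the largest number of edges of a graph on `n` vertices that contains a cycle of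
length `n` and has distinct cycle lengths. -/
noncomputable def h (n : ℕ) : ℕ :=
  sSup {m : ℕ | ∃ G : SimpleGraph (Fin n),
    (∃ (u : Fin n) (p : G.Walk u u), p.IsCycle ∧ p.length = n) ∧
    DistinctCycleLengths G ∧ G.edgeSet.ncard = m}

/-- all positive differences of elements of `B` are distinct (a Golomb ruler, Sidon set) -/
def Golomb (B : Finset ℕ) : Prop :=
  ∀ a ∈ B, ∀ b ∈ B, ∀ c ∈ B, ∀ d ∈ B, a < b → c < d → b - a = d - c → a = c ∧ b = d

open Pool.Agent.H426.HC Finset

lemma bdd (n : ℕ) : BddAbove {m : ℕ | ∃ G : SimpleGraph (Fin n),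
    (∃ (u : Fin n) (p : G.Walk u u), p.IsCycle ∧ p.length = n) ∧
    DistinctCycleLengths G ∧ G.edgeSet.ncard = m} := by
  refine ⟨(Set.univ : Set (Sym2 (Fin n))).ncard, ?_⟩
  rintro m ⟨G, _, _, rfl⟩
  exact Set.ncard_le_ncard (Set.subset_univ _) (Set.toFinite _)

lemma main {n : ℕ} (hn : 3 ≤ n) (B : Finset ℕ) (hB : ∀ b ∈ B, 1 ≤ b ∧ b ≤ n - 1)
    (h1 : 1 ∈ B) (h2 : n - 1 ∈ B) (hG : Golomb B) : n - 2 + B.card ≤ h n := by
  refine (edges_lower hn hB).trans (le_csSup (bdd n) ?_)
  exact ⟨G n B, ham hn h1 h2, fun u v p q hp hq hl => G_distinct hG hp hq hl, rfl⟩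

lemma with_top {n : ℕ} (S : Finset ℕ) (M : ℕ) (hM : 1 ≤ M) (hS : ∀ s ∈ S, 1 ≤ s ∧ s ≤ M)
    (hG : Golomb S) (h1 : 1 ∈ S) (hn : 2 * M + 1 ≤ n) (hn3 : 3 ≤ n) :
    n - 2 + (S.card + 1) ≤ h n := by
  have hnot : n - 1 ∉ S := by
    intro hmem
    have := hS _ hmem
    omega
  have := main (B := insert (n - 1) S) hn3 (by
    intro b hb
    rw [mem_insert] at hb
    rcases hb with rfl | hb
    · omega
    · have := hS b hb; omega) (mem_insert_of_mem h1) (mem_insert_self _ _)
    (golomb_insert hG M (n - 1) hS (by omega) hM)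
  rwa [card_insert_of_notMem hnot] at this

/-- For every Golomb ruler `B` in `[1, n-1]` containing both `1` and `n - 1`,
`h(n) ≥ n - 2 + |B|`; for every odd prime `p` and `n ≥ 4 p² + 1`, `h(n) ≥ n + p - 1`;
and `h(n) ≥ n + ⌊⌊√(n-2)⌋ / 4⌋` for every `n ≥ 3`. -/
theorem result :
    (∀ n : ℕ, 3 ≤ n → ∀ B : Finset ℕ, (∀ b ∈ B, 1 ≤ b ∧ b ≤ n - 1) → 1 ∈ B → n - 1 ∈ B →
      Golomb B → n - 2 + B.card ≤ h n) ∧
    (∀ n p : ℕ, p.Prime → p ≠ 2 → 4 * p ^ 2 + 1 ≤ n → n + p - 1 ≤ h n) ∧
    (∀ n : ℕ, 3 ≤ n → n + Nat.sqrt (n - 2) / 4 ≤ h n) := by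
  have key : ∀ n p : ℕ, p.Prime → p ≠ 2 → 4 * p ^ 2 + 1 ≤ n → n + p - 1 ≤ h n := by
    intro n p hp hp2 hn
    have hpos := hp.pos
    have hsq : 1 ≤ p ^ 2 := Nat.one_le_pow _ _ hpos
    have := with_top (n := n) (ET p) (2 * p ^ 2) (by omega) (ET_bound hpos)
      (ET_golomb hp hp2) (ET_one hpos) (by omega) (by omega)
    rw [ET_card hpos] at this
    omega
  refine ⟨fun n hn B hB h1 h2 hG => main hn B hB h1 h2 hG, key, ?_⟩
  intro n hn
  obtain ⟨m, hm⟩ : ∃ m, m = Nat.sqrt (n - 2) / 4 := ⟨_, rfl⟩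
  have hms : 4 * m ≤ Nat.sqrt (n - 2) := by omega
  have hms2 : (4 * m) * (4 * m) ≤ n - 2 :=
    (Nat.mul_le_mul hms hms).trans (Nat.sqrt_le (n - 2))
  rw [← hm]
  rcases Nat.lt_or_ge m 2 with hlt | hge
  · rcases Nat.lt_or_ge m 1 with h0 | h1
    · have : m = 0 := by omega
      subst this
      have := with_top (n := n) {1} 1 (le_refl _) (by simp)
        (by
          intro a ha b hb c hc d hd hab
          simp only [mem_singleton] at ha hb
          omega) (by simp) (by omega) hn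
      rw [card_singleton] at this
      omega
    · have : m = 1 := by omega
      subst this
      have := with_top (n := n) {1, 3} 3 (by norm_num) (by
          intro s hs
          simp only [mem_insert, mem_singleton] at hs
          omega)
        (by
          intro a ha b hb c hc d hd hab hcd _
          simp only [mem_insert, mem_singleton] at ha hb hc hd
          omega) (by simp) (by omega) hn
      rw [card_pair (by norm_num)] at this
      omega
  · obtain ⟨p, hp, hp1, hp2⟩ := Nat.exists_prime_lt_and_le_two_mul m (by omega)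
    have h3 : 4 * p ^ 2 ≤ n - 2 := by
      have : 2 * p ≤ 4 * m := by omega
      have h4 := Nat.mul_le_mul this this
      have e : 4 * p ^ 2 = 2 * p * (2 * p) := by ring
      rw [e]
      exact h4.trans hms2
    have := key n p hp (by omega) (by omega)
    omega

end Pool.Agent.Results.MP_838d6f_co.GolombBound
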